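import Pool.Agent.Helper8_HK.Stmt2

/-! Module CFX: coefficients of reduced polynomials as power sums. -/

namespace Pool.Agent.HK.H64

open MvPolynomial

/-- The numbering of the variables. -/
noncomputable def ixE (r : ℕ) [NeZero r] : Ix r ≃ Fin (4 * r) :=
  Equiv.ofBijective (fun j : Ix r => (⟨j.2.val + r * (j.1 : ℕ), by
    have h1 := ZMod.val_lt j.2
    have h2 := j.1.isLt
    have h3 : (j.1 : ℕ) ≤ 3 := by omega
    have h4 : r * (j.1 : ℕ) ≤ r * 3 := Nat.mul_le_mul_left _ h3
    omega⟩ : Fin (4 * r))) (by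
    rw [Fintype.bijective_iff_injective_and_card]
    constructor
    · intro j j' h
      simp only [Fin.mk.injEq] at h
      have h1 := ZMod.val_lt j.2
      have h2 := ZMod.val_lt j'.2
      have hr : 0 < r := Nat.pos_of_ne_zero (NeZero.ne r)
      have h3 : (j.1 : ℕ) = (j'.1 : ℕ) := by
        have e1 : (j.2.val + r * (j.1 : ℕ)) / r = (j.1 : ℕ) := by
          rw [Nat.add_mul_div_left _ _ hr, Nat.div_eq_of_lt h1, zero_add]
        have e2 : (j'.2.val + r * (j'.1 : ℕ)) / r = (j'.1 : ℕ) := by
          rw [Nat.add_mul_div_left _ _ hr, Nat.div_eq_of_lt h2, zero_add]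
        rw [← e1, ← e2, h]
      have h4 : j.2.val = j'.2.val := by
        rw [h3] at h
        omega
      exact Prod.ext (Fin.ext h3) (ZMod.val_injective r h4)
    · simp [Fintype.card_prod, ZMod.card])

lemma ixE_val {r : ℕ} [NeZero r] (j : Ix r) : ((ixE r j : Fin (4 * r)) : ℕ) = j.2.val + r * (j.1 : ℕ) := rfl

/-- Reduced exponents as digit functions. -/
lemma NN_eq {p r : ℕ} [NeZero r] (α : Ix r →₀ ℕ) (h : ∀ j, α j < p) :
    NN p α = ((finFunctionFinEquiv (m := p) (n := 4 * r)
      (fun i => ⟨α ((ixE r).symm i), h _⟩) : Fin (p ^ (4 * r))) : ℕ) := by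
  rw [finFunctionFinEquiv_apply]
  unfold NN
  rw [← (ixE r).sum_comp]
  refine Finset.sum_congr rfl (fun j _ => ?_)
  rw [ixE_val]
  simp

lemma NN_lt {p r : ℕ} [NeZero r] (α : Ix r →₀ ℕ) (h : ∀ j, α j < p) : NN p α < p ^ (4 * r) := by
  rw [NN_eq α h]
  exact Fin.isLt _

lemma NN_inj {p r : ℕ} [NeZero r] (α β : Ix r →₀ ℕ) (h : ∀ j, α j < p) (h' : ∀ j, β j < p)
    (he : NN p α = NN p β) : α = β := by
  rw [NN_eq α h, NN_eq β h'] at he
  have h1 := finFunctionFinEquiv.injective (Fin.ext he)
  ext j
  have h2 := congrFun h1 (ixE r j)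
  simpa using h2

lemma revE_lt {p r : ℕ} [NeZero r] [hp : Fact p.Prime] (α : Ix r →₀ ℕ) (j : Ix r) : revE p α j < p := by
  have := hp.out.pos
  simp only [revE, Finsupp.equivFunOnFinite_symm_apply_apply]
  omega

lemma sum_pow_range (p n : ℕ) (hp : 1 ≤ p) : ∑ i : Fin n, (p - 1) * p ^ (i : ℕ) = p ^ n - 1 := by
  rw [Fin.sum_univ_eq_sum_range (fun i => (p - 1) * p ^ i) n]
  induction n with
  | zero => simp
  | succ n ih =>
    rw [Finset.sum_range_succ, ih, pow_succ]
    have h1 : 1 ≤ p ^ n := Nat.one_le_pow _ _ hp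
    obtain ⟨a, rfl⟩ := Nat.exists_eq_add_of_le hp
    simp only [Nat.add_sub_cancel_left]
    have : (1 + a) ^ n * (1 + a) = (1 + a) ^ n + a * (1 + a) ^ n := by ring
    omega

lemma NN_rev_zero {p r : ℕ} [NeZero r] [hp : Fact p.Prime] : NN p (revE p (0 : Ix r →₀ ℕ)) = p ^ (4 * r) - 1 := by
  rw [← sum_pow_range p (4 * r) hp.out.one_lt.le]
  unfold NN
  rw [← (ixE r).sum_comp]
  refine Finset.sum_congr rfl (fun j _ => ?_)
  rw [ixE_val]
  simp [revE]

/-- Evaluation through exponents. -/
lemma evL_eq {p r : ℕ} [NeZero r] {L k : Type} [Field L] [Field k] (σ : L →+* k)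
    (P : MvPolynomial (Ix r) k) (x : L) :
    evL p σ P x = ∑ α ∈ P.support, coeff α P * (σ x) ^ (NN p α) := by
  unfold evL
  rw [MvPolynomial.eval_eq']
  refine Finset.sum_congr rfl (fun α _ => ?_)
  congr 1
  unfold NN
  rw [← Finset.prod_pow_eq_pow_sum]
  refine Finset.prod_congr rfl (fun j _ => ?_)
  rw [← pow_mul, mul_comm]

/-- Power sums. -/
lemma sum_pow_L {L k : Type} [Field L] [Field k] [Fintype L] (σ : L →+* k) (e : ℕ) (he : 0 < e) :
    ∑ x : L, (σ x) ^ e = if (Fintype.card L - 1) ∣ e then -1 else 0 := by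
  classical
  have h1 : ∑ x : L, (σ x) ^ e = σ (∑ x : L, x ^ e) := by
    rw [map_sum]
    simp [map_pow]
  have h2 : ∑ x : L, x ^ e = ∑ x : Lˣ, ((x ^ e : Lˣ) : L) := by
    rw [← Finset.sum_erase_add _ _ (Finset.mem_univ (0 : L)), zero_pow he.ne', add_zero]
    symm
    refine Finset.sum_bij (fun (u : Lˣ) _ => (u : L)) ?_ ?_ ?_ ?_
    · intro u _
      simp
    · intro u _ v _ h
      exact Units.ext h
    · intro b hb
      refine ⟨Units.mk0 b (by simpa using hb), Finset.mem_univ _, rfl⟩
    · intro u _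
      simp
  have h3 : ∑ x : Lˣ, ((x ^ e : Lˣ) : L) = if (Fintype.card L - 1) ∣ e then -1 else 0 := by
    have := FiniteField.sum_pow_units L e
    simpa using this
  rw [h1, h2, h3]
  split <;> simp

lemma sum_one_L {p r : ℕ} [Fact p.Prime] [NeZero r] {k : Type} [Field k] [CharP k p] :
    ((p ^ (4 * r) : ℕ) : k) = 0 := by
  rw [CharP.cast_eq_zero_iff k p]
  exact dvd_pow_self p (by have := NeZero.ne r; omega)

theorem cfx : CFXStmt := by
  intro p r hp hr L k _ _ _ _ hcard σ P hP
  have hq : 2 ≤ p ^ (4 * r) := by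
    calc 2 ≤ p := hp.out.two_le
      _ = p ^ 1 := (pow_one p).symm
      _ ≤ p ^ (4 * r) := Nat.pow_le_pow_right hp.out.pos (by have := NeZero.ne r; omega)
  refine ⟨?_, ?_, ?_⟩
  · rw [evL_eq]
    by_cases h : (0 : Ix r →₀ ℕ) ∈ P.support
    · rw [Finset.sum_eq_single_of_mem _ h]
      · simp [NN]
      · intro β hβ hne
        have h1 : NN p β ≠ 0 := by
          intro h0
          apply hne
          apply NN_inj β 0 (hP β hβ) (fun j => by simpa using hp.out.pos)
          rw [h0]
          simp [NN]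
        rw [map_zero, zero_pow h1, mul_zero]
    · rw [MvPolynomial.notMem_support_iff.mp h]
      symm
      apply Finset.sum_eq_zero
      intro β hβ
      have h1 : NN p β ≠ 0 := by
        intro h0
        apply h
        have : β = 0 := by
          apply NN_inj β 0 (hP β hβ) (fun j => by simpa using hp.out.pos)
          rw [h0]
          simp [NN]
        rw [← this]
        exact hβ
      rw [map_zero, zero_pow h1, mul_zero]
  · intro α hα h0 h1
    simp_rw [evL_eq, Finset.sum_mul]
    rw [Finset.sum_comm]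
    have key : ∀ β ∈ P.support, ∑ x : L, coeff β P * (σ x) ^ (NN p β) * (σ x) ^ (p ^ (4 * r) - 1 - NN p α) =
        if β = α then - coeff α P else 0 := by
      intro β hβ
      have hlt := NN_lt β (hP β hβ)
      simp_rw [mul_assoc, ← pow_add]
      rw [← Finset.mul_sum, sum_pow_L σ _ (by omega), hcard]
      by_cases hc : β = α
      · subst hc
        rw [if_pos rfl, if_pos]
        · ring
        · rw [show NN p β + (p ^ (4 * r) - 1 - NN p β) = p ^ (4 * r) - 1 by omega]
      · rw [if_neg hc, if_neg, mul_zero]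
        intro hd
        apply hc
        apply NN_inj β α (hP β hβ) hα
        obtain ⟨c, hc'⟩ := hd
        have hc1 : c = 1 := by
          rcases Nat.lt_or_ge c 1 with h | h
          · interval_cases c
            omega
          · rcases Nat.lt_or_ge c 2 with h2 | h2
            · omega
            · have := Nat.mul_le_mul_left (p ^ (4 * r) - 1) h2
              omega
        subst hc1
        omega
    rw [Finset.sum_congr rfl key, Finset.sum_ite_eq']
    by_cases h : α ∈ P.support
    · rw [if_pos h, neg_neg]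
    · rw [if_neg h, neg_zero]
      exact MvPolynomial.notMem_support_iff.mp h
  · simp_rw [evL_eq]
    rw [Finset.sum_comm]
    have hrl : ∀ j, revE p (0 : Ix r →₀ ℕ) j < p := fun j => revE_lt 0 j
    have key : ∀ β ∈ P.support, ∑ x : L, coeff β P * (σ x) ^ (NN p β) =
        if β = revE p 0 then - coeff (revE p 0) P else 0 := by
      intro β hβ
      have hlt := NN_lt β (hP β hβ)
      rw [← Finset.mul_sum]
      by_cases hc : β = revE p 0
      · rw [if_pos hc, hc, NN_rev_zero, sum_pow_L σ _ (by omega), hcard, if_pos dvd_rfl]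
        ring
      · rw [if_neg hc]
        rcases Nat.eq_zero_or_pos (NN p β) with hz | hpos
        · rw [hz]
          simp only [pow_zero, Finset.sum_const, Finset.card_univ, nsmul_eq_mul, mul_one]
          rw [hcard, sum_one_L (p := p) (r := r), mul_zero]
        · rw [sum_pow_L σ _ hpos, hcard, if_neg, mul_zero]
          intro hd
          apply hc
          apply NN_inj β _ (hP β hβ) hrl
          rw [NN_rev_zero]
          have := Nat.le_of_dvd hpos hd
          omega
    rw [Finset.sum_congr rfl key, Finset.sum_ite_eq']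
    by_cases h : revE p 0 ∈ P.support
    · rw [if_pos h, neg_neg]
    · rw [if_neg h, neg_zero]
      exact MvPolynomial.notMem_support_iff.mp h

end Pool.Agent.HK.H64
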