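import Pool.Agent.Helper64_HK.CFX

/-! Module HYP: the hyperplane sums kill the component of level degrees `p - 1`. -/

namespace Pool.Agent.HK.H64

open MvPolynomial

/-- Uniqueness for reduced polynomials, from CFX. -/
lemma redu_zero (hC : CFXStmt) {p r : ℕ} [hp : Fact p.Prime] [NeZero r] {L k : Type} [Field L] [Field k]
    [Fintype L] [CharP k p] (hcard : Fintype.card L = p ^ (4 * r)) (σ : L →+* k)
    (P : MvPolynomial (Ix r) k) (hP : Redu p P) (h : ∀ x, evL p σ P x = 0)
    (α : Ix r →₀ ℕ) (hα : ∀ j, α j < p) : coeff α P = 0 := by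
  obtain ⟨h1, h2, h3⟩ := hC p r L k hcard σ P hP
  have hlt := NN_lt α hα
  rcases Nat.eq_zero_or_pos (NN p α) with hz | hpos
  · have : α = 0 := by
      apply NN_inj α 0 hα (fun j => by simpa using hp.out.pos)
      rw [hz]
      simp [NN]
    rw [this, h1, h]
  · rcases Nat.lt_or_ge (NN p α) (p ^ (4 * r) - 1) with hl | hg
    · rw [h2 α hα hpos hl]
      simp [h]
    · have : α = revE p 0 := by
        apply NN_inj α _ hα (fun j => revE_lt 0 j)
        rw [NN_rev_zero]
        omega
      rw [this, h3]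
      simp [h]

lemma sum_zmod_val {r : ℕ} [NeZero r] (f : ℕ → ℕ) : ∑ s : ZMod r, f s.val = ∑ i ∈ Finset.range r, f i := by
  obtain ⟨t, rfl⟩ := Nat.exists_eq_succ_of_ne_zero (NeZero.ne r)
  exact Fin.sum_univ_eq_sum_range f (t + 1)

lemma multinomial_ne_zero {p : ℕ} [hp : Fact p.Prime] {k : Type} [Field k] [CharP k p] (f : Fin 4 → ℕ)
    (hf : ∑ i, f i = p - 1) : ((Nat.multinomial Finset.univ f : ℕ) : k) ≠ 0 := by
  intro h
  rw [CharP.cast_eq_zero_iff k p] at h
  have h1 := Nat.multinomial_spec (Finset.univ : Finset (Fin 4)) f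
  rw [hf] at h1
  have h2 : p ∣ (p - 1).factorial := by
    rw [← h1]
    exact Dvd.dvd.mul_left h _
  rw [hp.out.dvd_factorial] at h2
  have := hp.out.pos
  omega

/-- The power of the functional. -/
lemma tau_pow {p r : ℕ} [hp : Fact p.Prime] [NeZero r] {F L k : Type} [Field F] [Field L]
    [Field k] [Fintype F] [Fintype L] [Algebra F L] [CharP k p]
    (hF : Fintype.card F = p ^ r) (hL : Module.finrank F L = 4) (σ : L →+* k) (τ : L →ₗ[F] F) (β : L)
    (hβ : ∀ z, τ z = Algebra.trace F L (β * z)) (z : L) :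
    σ (algebraMap F L (τ z)) ^ (p ^ r - 1) =
      ∑ K ∈ Fintype.piFinset (fun _ : ZMod r => Finset.piAntidiag (Finset.univ : Finset (Fin 4)) (p - 1)),
        (∏ s, ((Nat.multinomial Finset.univ (K s) : ℕ) : k)) *
          (σ (β * z)) ^ (∑ j : Ix r, K j.2 j.1 * p ^ (j.2.val + r * (j.1 : ℕ))) := by
  have h1 : σ (algebraMap F L (τ z)) = ∑ i : Fin 4, σ (β * z) ^ (p ^ (r * (i : ℕ))) := by
    rw [hβ, FiniteField.algebraMap_trace_eq_sum_pow, hL, Finset.sum_range, map_sum]
    refine Finset.sum_congr rfl (fun i _ => ?_)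
    rw [map_pow, Nat.card_eq_fintype_card, hF, ← pow_mul]
  have h2 : ∀ s : ZMod r, (σ (algebraMap F L (τ z))) ^ (p ^ s.val) =
      ∑ i : Fin 4, σ (β * z) ^ (p ^ (s.val + r * (i : ℕ))) := by
    intro s
    rw [h1, sum_pow_char_pow]
    refine Finset.sum_congr rfl (fun i _ => ?_)
    rw [← pow_mul, ← pow_add, add_comm]
  have h3 : p ^ r - 1 = ∑ s : ZMod r, p ^ s.val * (p - 1) := by
    rw [sum_zmod_val (fun i => p ^ i * (p - 1)), ← sum_pow_range p r hp.out.one_lt.le,
      Fin.sum_univ_eq_sum_range (fun i => (p - 1) * p ^ i) r]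
    refine Finset.sum_congr rfl (fun i _ => mul_comm _ _)
  rw [h3, ← Finset.prod_pow_eq_pow_sum]
  have h4 : ∀ s : ZMod r, σ (algebraMap F L (τ z)) ^ (p ^ s.val * (p - 1)) =
      ∑ f ∈ Finset.piAntidiag (Finset.univ : Finset (Fin 4)) (p - 1),
        ((Nat.multinomial Finset.univ f : ℕ) : k) * ∏ i : Fin 4, (σ (β * z) ^ (p ^ (s.val + r * (i : ℕ)))) ^ f i := by
    intro s
    rw [pow_mul, h2, Finset.sum_pow_eq_sum_piAntidiag]
  rw [Finset.prod_congr rfl (fun s _ => h4 s), Finset.prod_univ_sum]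
  refine Finset.sum_congr rfl (fun K _ => ?_)
  rw [Finset.prod_mul_distrib]
  congr 1
  rw [Fintype.sum_prod_type, Finset.sum_comm, ← Finset.prod_pow_eq_pow_sum]
  refine Finset.prod_congr rfl (fun s _ => ?_)
  rw [← Finset.prod_pow_eq_pow_sum]
  refine Finset.prod_congr rfl (fun i _ => ?_)
  rw [← pow_mul]
  congr 1
  exact mul_comm _ _

/-- The exponent attached to a choice function. -/
noncomputable def ofK {r : ℕ} [NeZero r] (K : ZMod r → Fin 4 → ℕ) : Ix r →₀ ℕ :=
  Finsupp.equivFunOnFinite.symm (fun j => K j.2 j.1)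

lemma ofK_apply {r : ℕ} [NeZero r] (K : ZMod r → Fin 4 → ℕ) (j : Ix r) : ofK K j = K j.2 j.1 := by
  simp [ofK]

lemma ofK_inj {r : ℕ} [NeZero r] {K K' : ZMod r → Fin 4 → ℕ} (h : ofK K = ofK K') : K = K' := by
  funext s i
  have := DFunLike.congr_fun h (i, s)
  simpa [ofK_apply] using this

theorem hyp (hC : CFXStmt) : HYPStmt := by
  classical
  intro p r hp hr F L k _ _ _ _ _ _ _ _ hF hL σ τ hτ P hP hP0 hinv hsum α hα hld
  have hcard : Fintype.card L = p ^ (4 * r) := by
    rw [Module.card_eq_pow_finrank (K := F) (V := L), hF, hL, ← pow_mul, mul_comm]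
  -- the trace representation
  obtain ⟨β, hβ0, hβ⟩ : ∃ β : L, β ≠ 0 ∧ ∀ z, τ z = Algebra.trace F L (β * z) := by
    have hB := traceForm_nondegenerate F L
    refine ⟨((Algebra.traceForm F L).toDual hB).symm τ, ?_, ?_⟩
    · intro h
      apply hτ
      rw [LinearEquiv.map_eq_zero_iff] at h
      exact h
    · intro z
      rw [← Algebra.traceForm_apply]
      rw [LinearMap.BilinForm.apply_toDual_symm_apply]
  -- the sums over all nonzero values
  have hT : ∀ M : L, ∑ y : L, σ (algebraMap F L (τ (y * M))) ^ (p ^ r - 1) * evL p σ P y⁻¹ = 0 := by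
    intro M
    have hq : 0 < p ^ r - 1 := by
      have : 1 < p ^ r := Nat.one_lt_pow (NeZero.ne r) hp.out.one_lt
      omega
    have hpw : ∀ c : F, σ (algebraMap F L c) ^ (p ^ r - 1) = if c = 0 then 0 else 1 := by
      intro c
      by_cases hc : c = 0
      · rw [if_pos hc, hc, map_zero, map_zero, zero_pow hq.ne']
      · rw [if_neg hc, ← map_pow, ← map_pow, ← hF, FiniteField.pow_card_sub_one_eq_one c hc, map_one, map_one]
    by_cases hM : M = 0
    · subst hM
      apply Finset.sum_eq_zero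
      intro y _
      rw [mul_zero, map_zero, map_zero, map_zero, zero_pow hq.ne', zero_mul]
    have h1 : ∀ y : L, σ (algebraMap F L (τ (y * M))) ^ (p ^ r - 1) * evL p σ P y⁻¹ =
        ∑ c ∈ (Finset.univ : Finset F).erase 0, if τ (y * M) = c then evL p σ P y⁻¹ else 0 := by
      intro y
      rw [hpw, Finset.sum_ite_eq]
      by_cases hc : τ (y * M) = 0
      · rw [if_pos hc, if_neg (by simp [hc]), zero_mul]
      · rw [if_neg hc, if_pos (by simp [hc]), one_mul]
    rw [Finset.sum_congr rfl (fun y _ => h1 y), Finset.sum_comm]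
    apply Finset.sum_eq_zero
    intro c hc
    have hc0 : c ≠ 0 := by simpa using hc
    have hc1 : algebraMap F L c ≠ 0 := by
      rw [map_ne_zero_iff _ (algebraMap F L).injective]
      exact hc0
    refine (Equiv.sum_comp (Equiv.mulLeft₀ (algebraMap F L c) hc1) _).symm.trans (Eq.trans ?_ (hsum M hM))
    refine Finset.sum_congr rfl (fun y _ => ?_)
    have e0 : (Equiv.mulLeft₀ (algebraMap F L c) hc1) y = algebraMap F L c * y := rfl
    have e1 : τ ((Equiv.mulLeft₀ (algebraMap F L c) hc1) y * M) = c * τ (y * M) := by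
      rw [e0, mul_assoc, ← Algebra.smul_def, map_smul, smul_eq_mul]
    have e2 : evL p σ P ((Equiv.mulLeft₀ (algebraMap F L c) hc1) y)⁻¹ = evL p σ P y⁻¹ := by
      rw [e0, mul_inv, ← map_inv₀]
      exact hinv c⁻¹ y⁻¹ (inv_ne_zero hc0)
    rw [e1, e2]
    have e3 : (c * τ (y * M) = c) = (τ (y * M) = 1) := by
      apply propext
      constructor
      · intro h
        exact mul_left_cancel₀ hc0 (by rw [h, mul_one])
      · intro h
        rw [h, mul_one]
    simp only [e3]
  set S : Finset (ZMod r → Fin 4 → ℕ) := Fintype.piFinset (fun _ : ZMod r =>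
    Finset.piAntidiag (Finset.univ : Finset (Fin 4)) (p - 1)) with hS
  have hSm : ∀ K ∈ S, ∀ s, ∑ i, K s i = p - 1 := by
    intro K hK s
    rw [hS, Fintype.mem_piFinset] at hK
    have := hK s
    rw [Finset.mem_piAntidiag] at this
    exact this.1
  set mu : (ZMod r → Fin 4 → ℕ) → k := fun K => ∏ s, ((Nat.multinomial Finset.univ (K s) : ℕ) : k) with hmu
  set W : (ZMod r → Fin 4 → ℕ) → k := fun K => ∑ y : L, (σ y) ^ (NN p (ofK K)) * evL p σ P y⁻¹ with hW
  have hNN : ∀ K : ZMod r → Fin 4 → ℕ, NN p (ofK K) = ∑ j : Ix r, K j.2 j.1 * p ^ (j.2.val + r * (j.1 : ℕ)) := by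
    intro K
    unfold NN
    refine Finset.sum_congr rfl (fun j _ => ?_)
    rw [ofK_apply]
  -- the auxiliary polynomial
  set R : MvPolynomial (Ix r) k := ∑ K ∈ S, monomial (ofK K) (mu K * W K) with hR
  have hcoeff : ∀ γ : Ix r →₀ ℕ, coeff γ R = ∑ K ∈ S, if ofK K = γ then mu K * W K else 0 := by
    intro γ
    rw [hR, MvPolynomial.coeff_sum]
    refine Finset.sum_congr rfl (fun K _ => ?_)
    rw [MvPolynomial.coeff_monomial]
  have hRred : Redu p R := by
    intro γ hγ j
    rw [MvPolynomial.mem_support_iff, hcoeff] at hγ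
    obtain ⟨K, hK, hne⟩ := Finset.exists_ne_zero_of_sum_ne_zero hγ
    have h1 : ofK K = γ := by
      by_contra h
      rw [if_neg h] at hne
      exact hne rfl
    rw [← h1, ofK_apply]
    have h2 := hSm K hK j.2
    have h3 : K j.2 j.1 ≤ ∑ i, K j.2 i := Finset.single_le_sum (fun i _ => Nat.zero_le _) (Finset.mem_univ j.1)
    have := hp.out.pos
    omega
  have hRev : ∀ x : L, evL p σ R x = ∑ K ∈ S, mu K * W K * (σ x) ^ (NN p (ofK K)) := by
    intro x
    rw [hR]
    unfold evL
    rw [map_sum]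
    refine Finset.sum_congr rfl (fun K _ => ?_)
    rw [MvPolynomial.eval_monomial, Finsupp.prod_fintype _ _ (fun j => pow_zero _)]
    congr 1
    unfold NN
    rw [← Finset.prod_pow_eq_pow_sum]
    refine Finset.prod_congr rfl (fun j _ => ?_)
    rw [← pow_mul]
    congr 1
    exact mul_comm _ _
  have hR0 : ∀ x : L, evL p σ R x = 0 := by
    intro x
    rw [hRev]
    have h1 := hT (β⁻¹ * x)
    have h2 : ∀ y : L, σ (algebraMap F L (τ (y * (β⁻¹ * x)))) ^ (p ^ r - 1) * evL p σ P y⁻¹ =
        ∑ K ∈ S, mu K * (σ x) ^ (NN p (ofK K)) * ((σ y) ^ (NN p (ofK K)) * evL p σ P y⁻¹) := by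
      intro y
      rw [tau_pow hF hL σ τ β hβ, Finset.sum_mul]
      refine Finset.sum_congr rfl (fun K _ => ?_)
      rw [← hNN K]
      have h3 : β * (y * (β⁻¹ * x)) = x * y := by
        field_simp
      rw [h3, map_mul, mul_pow]
      ring
    rw [Finset.sum_congr rfl (fun y _ => h2 y), Finset.sum_comm] at h1
    rw [← h1]
    refine Finset.sum_congr rfl (fun K _ => ?_)
    rw [← Finset.mul_sum]
    ring
  -- extraction
  set K0 : ZMod r → Fin 4 → ℕ := fun s i => α (i, s) with hK0
  have hofK0 : ofK K0 = α := by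
    ext j
    rw [ofK_apply]
  have hK0S : K0 ∈ S := by
    rw [hS, Fintype.mem_piFinset]
    intro s
    rw [Finset.mem_piAntidiag]
    refine ⟨hld s, fun i _ => Finset.mem_univ i⟩
  have hz := redu_zero hC hcard σ R hRred hR0 α (hP α hα)
  rw [hcoeff, Finset.sum_eq_single_of_mem K0 hK0S (by
    intro K _ hne
    rw [if_neg]
    intro h
    apply hne
    apply ofK_inj
    rw [h, hofK0]), if_pos hofK0] at hz
  have hmu0 : mu K0 ≠ 0 := by
    rw [hmu]
    exact Finset.prod_ne_zero_iff.mpr (fun s _ => multinomial_ne_zero _ (hld s))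
  have hW0 : W K0 = 0 := by
    rcases mul_eq_zero.mp hz with h | h
    · exact absurd h hmu0
    · exact h
  -- bounds for the exponent
  have hpos : 0 < NN p α := by
    rcases Nat.eq_zero_or_pos (NN p α) with h | h
    · exfalso
      have h1 : α = 0 := by
        apply NN_inj α 0 (hP α hα) (fun j => by simpa using hp.out.pos)
        rw [h]
        simp [NN]
      have h2 := hld 0
      rw [h1] at h2
      simp only [ld, Finsupp.coe_zero, Pi.zero_apply, Finset.sum_const_zero] at h2
      have := hp.out.two_le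
      omega
    · exact h
  have hlt : NN p α < p ^ (4 * r) - 1 := by
    have h1 := NN_lt α (hP α hα)
    rcases Nat.lt_or_ge (NN p α) (p ^ (4 * r) - 1) with h | h
    · exact h
    · exfalso
      have h2 : α = revE p 0 := by
        apply NN_inj α _ (hP α hα) (fun j => revE_lt 0 j)
        rw [NN_rev_zero]
        omega
      have h3 := hld 0
      rw [h2] at h3
      simp only [ld, revE, Finsupp.equivFunOnFinite_symm_apply_apply, Finsupp.coe_zero, Pi.zero_apply,
        Finset.sum_const, Finset.card_univ, Fintype.card_fin, smul_eq_mul] at h3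
      have := hp.out.two_le
      omega
  have hfin := (hC p r L k hcard σ P hP).2.1 α (hP α hα) hpos hlt
  have hWsum : W K0 = ∑ x : L, evL p σ P x * (σ x) ^ (p ^ (4 * r) - 1 - NN p α) := by
    rw [hW]
    simp only [hofK0]
    refine (Equiv.sum_comp (Equiv.inv L) _).symm.trans ?_
    refine Finset.sum_congr rfl (fun x _ => ?_)
    simp only [Equiv.inv_apply, inv_inv]
    by_cases hx : x = 0
    · subst hx
      rw [inv_zero, map_zero, zero_pow hpos.ne', zero_pow (by omega), zero_mul, mul_zero]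
    · have hσ : σ x ≠ 0 := by
        rw [map_ne_zero_iff _ σ.injective]
        exact hx
      have h1 : (σ x) ^ (p ^ (4 * r) - 1) = 1 := by
        rw [← map_pow, ← hcard, FiniteField.pow_card_sub_one_eq_one x hx, map_one]
      have h2 : (σ x) ^ (p ^ (4 * r) - 1 - NN p α) * (σ x) ^ (NN p α) = 1 := by
        rw [← pow_add, Nat.sub_add_cancel hlt.le, h1]
      have h3 : (σ x) ^ (p ^ (4 * r) - 1 - NN p α) = ((σ x) ^ (NN p α))⁻¹ := by
        exact eq_inv_of_mul_eq_one_left h2
      rw [h3, map_inv₀, inv_pow, mul_comm]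
  rw [← hWsum, hW0, neg_zero] at hfin
  exact (MvPolynomial.mem_support_iff.mp hα) hfin

end Pool.Agent.HK.H64
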